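import Pool.Agent.V11188.GM.G

/-!
# The largest Gromov mass of the unit ball of a normed space

For every `d ≥ 1` and every symmetric convex body `M ⊂ ℝ^d` the Gromov mass of `M` with respect to
the norm with unit ball `M`,
`vol^m_M(M) = (2^d / d!) vol(M) / max {vol(conv {± v_1, ..., ± v_d}) : v_i ∈ M}`,
is at most the volume `κ_d` of the Euclidean unit ball, with equality if and only if `M` is an
ellipsoid.

Outline.  The quotient is `vol(M) / D(M)` with `D(M)` the largest `|det (v_1, ..., v_d)|`,
`v_i ∈ M`.  Determinants are affine in the coordinates of the points in one direction, so `D` does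
not increase under Steiner symmetrisation, which gives the inequality.  Equality: let `M` be
extremal.  Every boundary point of an extremal body belongs to a tuple of determinant `D(M)`
(otherwise one could add a small cap).  The Steiner symmetral `N` of `M` in a direction `u` is
extremal as well; for a maximal tuple of `N` the corresponding midpoints of the chords of `M` are
linearly dependent.  This gives an estimate for the midpoints by the distance of the graph of `N`
from its supporting planes, which shows that the midpoint map is positively homogeneous along rays;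
if `M` is smooth at the boundary point in the direction `u` it follows that the midpoints of the
chords parallel to `u` lie in a hyperplane.  In isotropic position the symmetries of `M` obtained
in this way are orthogonal reflections, for a dense set of directions, and `M` is a ball.
-/

set_option autoImplicit false

open MeasureTheory Set Module Metric

namespace Pool.Agent.Results.MP_77d991_gt.MassOfUnitBall

/-- symmetric convex bodies -/
structure IsSymBody {d : ℕ} (M : Set (EuclideanSpace ℝ (Fin d))) : Prop where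
  isCompact : IsCompact M
  convex : Convex ℝ M
  interior_nonempty : (interior M).Nonempty
  neg_mem : ∀ x ∈ M, -x ∈ M

/-- the cross-polytope `conv {± v_1, ..., ± v_d}` -/
def cross {d : ℕ} (v : Fin d → EuclideanSpace ℝ (Fin d)) : Set (EuclideanSpace ℝ (Fin d)) :=
  convexHull ℝ (Set.range v ∪ Set.range fun i => -v i)

/-- the volumes of the cross-polytopes inscribed in `M` -/
def crossVolumes {d : ℕ} (M : Set (EuclideanSpace ℝ (Fin d))) : Set ℝ :=
  {r | ∃ v : Fin d → EuclideanSpace ℝ (Fin d),
    (∀ i, v i ∈ M) ∧ LinearIndependent ℝ v ∧ r = (volume (cross v)).toReal}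

/-- Gromov's mass of `M` with respect to the norm with unit ball `M`; the supremum is a maximum by
the last part of `result` -/
noncomputable def mass {d : ℕ} (M : Set (EuclideanSpace ℝ (Fin d))) : ℝ :=
  2 ^ d / (d.factorial : ℝ) * ((volume M).toReal / sSup (crossVolumes M))

open Pool.Agent.V11188.GM

section aux

variable {m : ℕ}

lemma cross_std :
    cross (fun i => (EuclideanSpace.basisFun (Fin (m + 1)) ℝ) i) =
      {x : Ed m | ∑ i, |x i| ≤ 1} := by
  set e := EuclideanSpace.basisFun (Fin (m + 1)) ℝ with he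
  have hei : ∀ i, e i = EuclideanSpace.single i (1:ℝ) := fun i => by rw [he]; simp
  apply Subset.antisymm
  · refine convexHull_min ?_ ?_
    · rintro _ (⟨i, rfl⟩ | ⟨i, rfl⟩)
      · show ∑ j, |(e i) j| ≤ 1
        rw [hei, Finset.sum_eq_single i]
        · simp
        · intro j _ hj; simp [hj]
        · intro h; exact absurd (Finset.mem_univ i) h
      · show ∑ j, |(-e i) j| ≤ 1
        rw [hei, Finset.sum_eq_single i]
        · simp
        · intro j _ hj; simp [hj]
        · intro h; exact absurd (Finset.mem_univ i) h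
    · intro x hx y hy a b ha hb hab
      rw [mem_ofPred_eq] at hx hy ⊢
      calc ∑ i, |(a • x + b • y) i| ≤ ∑ i, (a * |x i| + b * |y i|) := by
            refine Finset.sum_le_sum fun i _ => ?_
            have h1 := abs_add_le (a * x i) (b * y i)
            rw [abs_mul, abs_mul, abs_of_nonneg ha, abs_of_nonneg hb] at h1
            simpa using h1
        _ = a * ∑ i, |x i| + b * ∑ i, |y i| := by
            rw [Finset.sum_add_distrib, Finset.mul_sum, Finset.mul_sum]
        _ ≤ 1 := by nlinarith
  · intro x hx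
    rw [mem_ofPred_eq] at hx
    have hconv : Convex ℝ (cross (fun i => e i)) := convex_convexHull ℝ _
    have hp : ∀ i, e i ∈ cross (fun i => e i) := fun i => subset_convexHull ℝ _ (Or.inl ⟨i, rfl⟩)
    have hn : ∀ i, -e i ∈ cross (fun i => e i) := fun i => subset_convexHull ℝ _ (Or.inr ⟨i, rfl⟩)
    have h0 : (0 : Ed m) ∈ cross (fun i => e i) := by
      have := hconv (hp 0) (hn 0) (a := 1 / 2) (b := 1 / 2) (by norm_num) (by norm_num) (by norm_num)
      have e1 : (1 / 2 : ℝ) • e 0 + (1 / 2 : ℝ) • (-e 0) = 0 := by module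
      rwa [e1] at this
    have hxe : x = ∑ i, x i • e i := by
      have := e.sum_repr x
      conv_lhs => rw [← this]
      refine Finset.sum_congr rfl fun i _ => ?_
      rw [he, EuclideanSpace.basisFun_repr]
    set s := ∑ i, |x i| with hs
    have hs0 : 0 ≤ s := Finset.sum_nonneg fun i _ => abs_nonneg _
    rcases hs0.eq_or_lt with h1 | h1
    · have hz : ∀ i, x i = 0 := by
        intro i
        have := (Finset.sum_eq_zero_iff_of_nonneg fun i _ => abs_nonneg (x i)).1 (hs.symm.trans h1.symm)
          i (Finset.mem_univ i)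
        exact abs_eq_zero.1 this
      have hx0 : x = 0 := by
        rw [hxe]
        exact Finset.sum_eq_zero fun i _ => by rw [hz i, zero_smul]
      rw [hx0]; exact h0
    · -- the normalised point
      have hz : ∀ i, ∃ z ∈ cross (fun i => e i), |x i| • z = x i • e i := by
        intro i
        rcases abs_cases (x i) with ⟨h2, _⟩ | ⟨h2, _⟩
        · exact ⟨e i, hp i, by rw [h2]⟩
        · exact ⟨-e i, hn i, by rw [h2]; module⟩
      choose z hzm hze using hz
      have hy : ∑ i, (|x i| / s) • z i ∈ cross (fun i => e i) := by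
        refine hconv.sum_mem (fun i _ => by positivity) ?_ fun i _ => hzm i
        rw [← Finset.sum_div, div_self h1.ne']
      have hxs : x = s • ∑ i, (|x i| / s) • z i := by
        rw [Finset.smul_sum]
        conv_lhs => rw [hxe]
        refine Finset.sum_congr rfl fun i _ => ?_
        rw [smul_smul, mul_div_cancel₀ _ h1.ne', hze]
      rw [hxs]
      have := hconv hy h0 hs0 (by linarith : (0:ℝ) ≤ 1 - s) (by ring)
      simpa using this

lemma volume_cross_std :
    volume (cross (fun i => (EuclideanSpace.basisFun (Fin (m + 1)) ℝ) i)) =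
      ENNReal.ofReal (2 ^ (m + 1) / ((m + 1).factorial : ℝ)) := by
  rw [cross_std]
  have h1 := MeasureTheory.volume_sum_rpow_le (ι := Fin (m + 1)) (p := 1) le_rfl 1
  have h2 := (EuclideanSpace.volume_preserving_symm_measurableEquiv_toLp (Fin (m + 1))).symm
  have h3 : {x : Ed m | ∑ i, |x i| ≤ 1} = (MeasurableEquiv.toLp 2 (Fin (m + 1) → ℝ)).symm ⁻¹'
      {x : Fin (m + 1) → ℝ | (∑ i, |x i| ^ (1:ℝ)) ^ (1 / (1:ℝ)) ≤ 1} := by
    ext x
    simp
  rw [h3]
  have h4 := (EuclideanSpace.volume_preserving_symm_measurableEquiv_toLp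
    (Fin (m + 1))).measure_preimage_equiv
    {x : Fin (m + 1) → ℝ | (∑ i, |x i| ^ (1:ℝ)) ^ (1 / (1:ℝ)) ≤ 1}
  rw [h4, h1]
  have h5 : Real.Gamma (1 / (1:ℝ) + 1) = 1 := by
    rw [show (1 / (1:ℝ) + 1) = ((1:ℕ) : ℝ) + 1 by norm_num, Real.Gamma_nat_eq_factorial]
    simp
  have h6 : Real.Gamma ((Fintype.card (Fin (m + 1)) : ℝ) / 1 + 1) = ((m + 1).factorial : ℝ) := by
    rw [div_one, Fintype.card_fin, Real.Gamma_nat_eq_factorial]
  rw [h5, h6]
  simp

lemma volume_cross (v : Fin (m + 1) → Ed m) :
    volume (cross v) = ENNReal.ofReal (2 ^ (m + 1) / ((m + 1).factorial : ℝ) * |dt v|) := by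
  set e := EuclideanSpace.basisFun (Fin (m + 1)) ℝ with he
  let V : Ed m →ₗ[ℝ] Ed m := e.toBasis.constr ℝ v
  have hV : ∀ i, V (e i) = v i := by
    intro i
    have := e.toBasis.constr_basis ℝ v i
    rwa [OrthonormalBasis.coe_toBasis] at this
  have h1 : cross v = V '' cross (fun i => e i) := by
    unfold cross
    rw [V.image_convexHull, image_union, ← range_comp, ← range_comp]
    congr 3
    · funext i; exact (hV i).symm
    · funext i
      simp only [Function.comp, map_neg, hV]
  have h2 : LinearMap.det V = dt v := by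
    have h3 := dt_comp V (fun i => e i)
    have h4 : dt (fun i => e i) = 1 := by
      have := dt_smul_basis (m := m) 1
      simp only [one_smul, one_pow] at this
      exact this
    rw [h4, mul_one] at h3
    rw [← h3]
    congr 1
    funext i
    exact hV i
  have h5 := Measure.addHaar_image_linearMap (volume : Measure (Ed m)) V (cross (fun i => e i))
  rw [h1, h5, volume_cross_std, h2, mul_comm, ENNReal.ofReal_mul (by positivity)]

/-- the largest determinant -/
lemma exists_max {M : Set (Ed m)} (hM : IsSymBody M) :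
    ∃ v : Fin (m + 1) → Ed m, (∀ i, v i ∈ M) ∧ 0 < |dt v| ∧ PropD M |dt v| := by
  have hne : M.Nonempty := hM.interior_nonempty.mono interior_subset
  obtain ⟨x, hx⟩ := hne
  have hcpt : IsCompact (Set.univ.pi fun _ : Fin (m + 1) => M) :=
    isCompact_univ_pi fun _ => hM.isCompact
  obtain ⟨v, hv, hvm⟩ := hcpt.exists_isMaxOn ⟨fun _ => x, fun i _ => hx⟩
    (f := fun v => |dt v|) (continuous_dt.abs).continuousOn
  have hP : PropD M |dt v| := fun w hw => hvm (fun i _ => hw i)
  refine ⟨v, fun i => hv i (mem_univ i), ?_, hP⟩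
  by_contra h0
  have h1 : |dt v| = 0 := le_antisymm (not_lt.1 h0) (abs_nonneg _)
  have h2 := volume_le hM.isCompact hM.convex hP
  rw [h1] at h2
  simp only [ENNReal.ofReal_zero, zero_mul, nonpos_iff_eq_zero] at h2
  have h3 := (isOpen_interior.measure_pos volume hM.interior_nonempty).trans_le
    (measure_mono interior_subset)
  exact h3.ne' h2

lemma linearIndependent_of_dt {v : Fin (m + 1) → Ed m} (h : 0 < |dt v|) :
    LinearIndependent ℝ v := by
  by_contra hcon
  have := (dtA m).map_linearDependent v hcon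
  rw [← dt_eq_dtA] at this
  rw [this, abs_zero] at h
  exact lt_irrefl _ h

lemma isGreatest_cross {M : Set (Ed m)} {v : Fin (m + 1) → Ed m} (hv : ∀ i, v i ∈ M)
    (hpos : 0 < |dt v|) (hP : PropD M |dt v|) :
    IsGreatest (crossVolumes M) (2 ^ (m + 1) / ((m + 1).factorial : ℝ) * |dt v|) := by
  refine ⟨⟨v, hv, linearIndependent_of_dt hpos, ?_⟩, ?_⟩
  · rw [volume_cross, ENNReal.toReal_ofReal (by positivity)]
  · rintro _ ⟨w, hw, -, rfl⟩
    rw [volume_cross, ENNReal.toReal_ofReal (by positivity)]
    exact mul_le_mul_of_nonneg_left (hP w hw) (by positivity)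

lemma mass_eq {M : Set (Ed m)} {v : Fin (m + 1) → Ed m} (hv : ∀ i, v i ∈ M)
    (hpos : 0 < |dt v|) (hP : PropD M |dt v|) : mass M = (volume M).toReal / |dt v| := by
  unfold mass
  rw [(isGreatest_cross hv hpos hP).csSup_eq]
  field_simp

lemma volume_ball_eq : (volume (closedBall (0 : Ed m) 1)).toReal =
    Real.sqrt Real.pi ^ (m + 1) / Real.Gamma (((m + 1 : ℕ) : ℝ) / 2 + 1) := by
  rw [EuclideanSpace.volume_closedBall]
  simp only [ENNReal.ofReal_one, one_pow, one_mul, Fintype.card_fin]
  rw [ENNReal.toReal_ofReal]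
  positivity

lemma mass_le {M : Set (Ed m)} (hM : IsSymBody M) :
    mass M ≤ Real.sqrt Real.pi ^ (m + 1) / Real.Gamma (((m + 1 : ℕ) : ℝ) / 2 + 1) := by
  obtain ⟨v, hv, hpos, hP⟩ := exists_max hM
  rw [mass_eq hv hpos hP, div_le_iff₀ hpos, ← volume_ball_eq, mul_comm]
  have h1 := volume_le hM.isCompact hM.convex hP
  have h2 := ENNReal.toReal_mono (ENNReal.mul_ne_top ENNReal.ofReal_ne_top
    (isCompact_closedBall (0 : Ed m) 1).measure_lt_top.ne) h1
  rwa [ENNReal.toReal_mul, ENNReal.toReal_ofReal (abs_nonneg _)] at h2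

lemma ellipsoid_of_mass {M : Set (Ed m)} (hM : IsSymBody M)
    (h : mass M = Real.sqrt Real.pi ^ (m + 1) / Real.Gamma (((m + 1 : ℕ) : ℝ) / 2 + 1)) :
    ∃ T : Ed m ≃ₗ[ℝ] Ed m, M = T '' closedBall 0 1 := by
  obtain ⟨v, hv, hpos, hP⟩ := exists_max hM
  rw [mass_eq hv hpos hP, ← volume_ball_eq, div_eq_iff hpos.ne'] at h
  have hE : Ext M |dt v| := by
    refine ⟨hM.isCompact, hM.convex, hM.neg_mem, hpos, hP, ?_⟩
    rw [← ENNReal.ofReal_toReal hM.isCompact.measure_lt_top.ne, h, ENNReal.ofReal_mul
      ENNReal.toReal_nonneg, ENNReal.ofReal_toReal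
      (isCompact_closedBall (0 : Ed m) 1).measure_lt_top.ne, mul_comm]
  exact hE.ellipsoid

/-- Hadamard's inequality -/
lemma hadamard (v : Fin (m + 1) → Ed m) (hv : ∀ i, v i ∈ closedBall (0 : Ed m) 1) : |dt v| ≤ 1 := by
  have hfact : Fact (finrank ℝ (Ed m) = m + 1) := ⟨by simp⟩
  let o : Orientation ℝ (Ed m) (Fin (m + 1)) :=
    (EuclideanSpace.basisFun (Fin (m + 1)) ℝ).toBasis.orientation
  have h1 := o.volumeForm_robust' (EuclideanSpace.basisFun (Fin (m + 1)) ℝ) v
  have h2 := o.abs_volumeForm_apply_le v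
  rw [h1] at h2
  refine le_trans h2 ?_
  refine Finset.prod_le_one (fun i _ => norm_nonneg _) fun i _ => ?_
  simpa using hv i

lemma isSymBody_ellipsoid (T : Ed m ≃ₗ[ℝ] Ed m) : IsSymBody (T '' closedBall 0 1) := by
  refine ⟨?_, ?_, ?_, ?_⟩
  · exact (isCompact_closedBall _ _).image T.toContinuousLinearEquiv.continuous
  · exact (convex_closedBall _ _).linear_image T.toLinearMap
  · have h1 := T.toContinuousLinearEquiv.toHomeomorph.image_interior (closedBall (0 : Ed m) 1)
    have h2 : (interior (T '' closedBall (0 : Ed m) 1)) =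
        T '' interior (closedBall (0 : Ed m) 1) := h1.symm
    rw [h2, interior_closedBall _ one_ne_zero]
    exact ⟨T 0, 0, by simp, rfl⟩
  · rintro _ ⟨x, hx, rfl⟩
    exact ⟨-x, by simpa using hx, by simp⟩

lemma mass_ellipsoid (T : Ed m ≃ₗ[ℝ] Ed m) : mass (T '' closedBall 0 1) =
    Real.sqrt Real.pi ^ (m + 1) / Real.Gamma (((m + 1 : ℕ) : ℝ) / 2 + 1) := by
  set e := EuclideanSpace.basisFun (Fin (m + 1)) ℝ with he
  set δ := LinearMap.det (T : Ed m →ₗ[ℝ] Ed m) with hδ
  have hδ0 : 0 < |δ| := abs_pos.2 (LinearEquiv.isUnit_det' T).ne_zero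
  have hball : PropD (closedBall (0 : Ed m) 1) 1 := hadamard
  have h1 := propD_image hball T
  rw [mul_one] at h1
  have hdt : dt (fun i => T (e i)) = δ := by
    have h3 := dt_comp (T : Ed m →ₗ[ℝ] Ed m) (fun i => e i)
    have h4 : dt (fun i => e i) = 1 := by
      have := dt_smul_basis (m := m) 1
      simp only [one_smul, one_pow] at this
      exact this
    rw [h4, mul_one] at h3
    exact h3
  have hP : PropD (T '' closedBall (0 : Ed m) 1) |dt (fun i => T (e i))| := by
    rw [hdt]; exact h1
  have hpos : 0 < |dt (fun i => T (e i))| := by rw [hdt]; exact hδ0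
  rw [mass_eq (v := fun i => T (e i)) (fun i => mem_image_of_mem _ (by simp)) hpos hP, hdt]
  have h5 := Measure.addHaar_image_linearMap (volume : Measure (Ed m)) (T : Ed m →ₗ[ℝ] Ed m)
    (closedBall (0 : Ed m) 1)
  have h6 : volume (T '' closedBall (0 : Ed m) 1) =
    ENNReal.ofReal |δ| * volume (closedBall (0 : Ed m) 1) := h5
  rw [h6, ENNReal.toReal_mul, ENNReal.toReal_ofReal (abs_nonneg _), volume_ball_eq]
  field_simp

end aux

/-- **The least upper bound of the Gromov mass of unit balls.**  For every `d ≥ 1` the largest value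
of `vol^m_M(M)` over all symmetric convex bodies `M` of `ℝ^d` is the volume
`π^(d/2) / Γ(d/2 + 1)` of the Euclidean unit ball, and it is attained exactly by the ellipsoids. -/
theorem result (d : ℕ) (hd : 1 ≤ d) :
    -- the least upper bound is the volume of the Euclidean unit ball, and it is attained
    IsGreatest {r : ℝ | ∃ M : Set (EuclideanSpace ℝ (Fin d)), IsSymBody M ∧ r = mass M}
      (Real.sqrt Real.pi ^ d / Real.Gamma ((d : ℝ) / 2 + 1)) ∧
    -- exactly by the ellipsoids
    (∀ M : Set (EuclideanSpace ℝ (Fin d)), IsSymBody M →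
      (mass M = Real.sqrt Real.pi ^ d / Real.Gamma ((d : ℝ) / 2 + 1) ↔
        ∃ T : EuclideanSpace ℝ (Fin d) ≃ₗ[ℝ] EuclideanSpace ℝ (Fin d),
          M = T '' closedBall 0 1)) ∧
    -- the supremum in the definition of the mass is a positive maximum
    (∀ M : Set (EuclideanSpace ℝ (Fin d)), IsSymBody M →
      IsGreatest (crossVolumes M) (sSup (crossVolumes M)) ∧ 0 < sSup (crossVolumes M)) := by
  obtain ⟨m, rfl⟩ : ∃ m, d = m + 1 := ⟨d - 1, by omega⟩
  refine ⟨⟨?_, ?_⟩, ?_, ?_⟩
  · exact ⟨(LinearEquiv.refl ℝ (Ed m)) '' closedBall 0 1, isSymBody_ellipsoid _,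
      (mass_ellipsoid (LinearEquiv.refl ℝ (Ed m))).symm⟩
  · rintro _ ⟨M, hM, rfl⟩
    exact mass_le hM
  · intro M hM
    constructor
    · exact ellipsoid_of_mass hM
    · rintro ⟨T, rfl⟩
      exact mass_ellipsoid T
  · intro M hM
    obtain ⟨v, hv, hpos, hP⟩ := exists_max hM
    have h1 := isGreatest_cross hv hpos hP
    rw [h1.csSup_eq]
    exact ⟨h1, by positivity⟩

end Pool.Agent.Results.MP_77d991_gt.MassOfUnitBall
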